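import Pool.Agent.Run7.h314.LK.Iface

/-! Piece BORD of project LK (helper314): the derivative of the leading coefficient of
`det (M₀ + s B)` in the directions `B A + N`. -/

set_option autoImplicit false

namespace Run7.h781.LK

open Polynomial Pool.Agent.Run7.h314.LK

set_option linter.unusedSectionVars false

variable {ι : Type} [Fintype ι] [DecidableEq ι]

/-- The coefficients of the adjugate of `1 + X R`. -/
noncomputable def ac (R : Matrix ι ι ℝ) (k : ℕ) : Matrix ι ι ℝ :=
  ((1 + (X : ℝ[X]) • R.map C).adjugate).map (fun p => p.coeff k)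

lemma coeff_Xmul (R : Matrix ι ι ℝ) (P : Matrix ι ι ℝ[X]) (k : ℕ) :
    (((X : ℝ[X]) • R.map C) * P).map (fun p => p.coeff (k + 1)) =
      R * P.map (fun p => p.coeff k) := by
  ext i j
  simp only [Matrix.map_apply, Matrix.mul_apply, Matrix.smul_apply, smul_eq_mul,
    Polynomial.finsetSum_coeff]
  refine Finset.sum_congr rfl fun l _ => ?_
  rw [mul_assoc, Polynomial.coeff_X_mul, Polynomial.coeff_C_mul]

lemma ac_rec (R : Matrix ι ι ℝ) (k : ℕ) :
    ac R (k + 1) = ((1 + (X : ℝ[X]) • R.map C).det).coeff (k + 1) • (1 : Matrix ι ι ℝ) - R * ac R k := by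
  have h := Matrix.mul_adjugate (1 + (X : ℝ[X]) • R.map C)
  have h1 := congrArg (fun m : Matrix ι ι ℝ[X] => m.map (fun p => p.coeff (k + 1))) h
  simp only [add_mul, one_mul] at h1
  rw [Matrix.map_add _ (fun a b => Polynomial.coeff_add a b (k + 1)), coeff_Xmul] at h1
  rw [eq_sub_iff_add_eq]
  refine h1.trans ?_
  ext i j
  simp only [Matrix.map_apply, Matrix.smul_apply, smul_eq_mul]
  by_cases hij : i = j
  · subst hij; simp
  · simp [Matrix.one_apply_ne hij]

lemma ac_zero (R : Matrix ι ι ℝ) :
    ac R 0 = ((1 + (X : ℝ[X]) • R.map C).det).coeff 0 • (1 : Matrix ι ι ℝ) := by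
  have h := Matrix.mul_adjugate (1 + (X : ℝ[X]) • R.map C)
  have h1 := congrArg (fun m : Matrix ι ι ℝ[X] => m.map (fun p => p.coeff 0)) h
  simp only [add_mul, one_mul] at h1
  rw [Matrix.map_add _ (fun a b => Polynomial.coeff_add a b 0)] at h1
  have h2 : (((X : ℝ[X]) • R.map C) * (1 + (X : ℝ[X]) • R.map C).adjugate).map
      (fun p => p.coeff 0) = 0 := by
    ext i j
    simp only [Matrix.map_apply, Matrix.mul_apply, Matrix.smul_apply, smul_eq_mul,
      Polynomial.finsetSum_coeff, Matrix.zero_apply]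
    refine Finset.sum_eq_zero fun l _ => ?_
    rw [mul_assoc, Polynomial.mul_coeff_zero, Polynomial.coeff_X_zero, zero_mul]
  rw [h2, add_zero] at h1
  refine h1.trans ?_
  ext i j
  simp only [Matrix.map_apply, Matrix.smul_apply, smul_eq_mul]
  by_cases hij : i = j
  · subst hij; simp
  · simp [Matrix.one_apply_ne hij]

lemma ac_comm (R A : Matrix ι ι ℝ) (h : Commute R A) (k : ℕ) : Commute (ac R k) A := by
  induction k with
  | zero =>
    rw [ac_zero]
    exact (Commute.one_left A).smul_left _
  | succ k ih =>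
    rw [ac_rec]
    exact ((Commute.one_left A).smul_left _).sub_left (h.mul_left ih)

lemma ac_tail (R : Matrix ι ι ℝ) (K : ℕ)
    (hK : ∀ k, K < k → ((1 + (X : ℝ[X]) • R.map C).det).coeff k = 0) (k : ℕ) (hk : K ≤ k) (l : ℕ) :
    ac R (k + l) = (-R) ^ l * ac R k := by
  induction l with
  | zero => simp
  | succ l ih =>
    rw [← add_assoc, ac_rec, hK _ (by omega), ih, pow_succ']
    simp [mul_assoc]

lemma ac_fin (R : Matrix ι ι ℝ) : ∃ L, ∀ k, L ≤ k → ac R k = 0 := by
  refine ⟨(Finset.univ.sup fun i => Finset.univ.sup fun j =>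
    ((1 + (X : ℝ[X]) • R.map C).adjugate i j).natDegree) + 1, fun k hk => ?_⟩
  ext i j
  simp only [ac, Matrix.map_apply, Matrix.zero_apply]
  refine Polynomial.coeff_eq_zero_of_natDegree_lt ?_
  have h1 : ((1 + (X : ℝ[X]) • R.map C).adjugate i j).natDegree ≤
      (Finset.univ.sup fun j => ((1 + (X : ℝ[X]) • R.map C).adjugate i j).natDegree) :=
    Finset.le_sup (f := fun j => ((1 + (X : ℝ[X]) • R.map C).adjugate i j).natDegree)
      (Finset.mem_univ j)
  have h2 : (Finset.univ.sup fun j => ((1 + (X : ℝ[X]) • R.map C).adjugate i j).natDegree) ≤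
      (Finset.univ.sup fun i => Finset.univ.sup fun j =>
        ((1 + (X : ℝ[X]) • R.map C).adjugate i j).natDegree) :=
    Finset.le_sup (f := fun i => Finset.univ.sup fun j =>
      ((1 + (X : ℝ[X]) • R.map C).adjugate i j).natDegree) (Finset.mem_univ i)
  omega

lemma core (R A : Matrix ι ι ℝ) (h : Commute R A) (K : ℕ)
    (hK : ∀ k, K < k → ((1 + (X : ℝ[X]) • R.map C).det).coeff k = 0) (k : ℕ) (hk : K ≤ k) :
    (((1 + (X : ℝ[X]) • R.map C).adjugate * (R * A).map C).trace).coeff k = 0 := by
  have h1 : (((1 + (X : ℝ[X]) • R.map C).adjugate * (R * A).map C).trace).coeff k =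
      (ac R k * (R * A)).trace := by
    simp only [Matrix.trace, Matrix.diag_apply, Matrix.mul_apply, Polynomial.finsetSum_coeff]
    refine Finset.sum_congr rfl fun i _ => ?_
    refine Finset.sum_congr rfl fun j _ => ?_
    simp only [ac, Matrix.map_apply]
    rw [Polynomial.coeff_mul_C]
    rw [Matrix.mul_apply]
  rw [h1]
  obtain ⟨L, hL⟩ := ac_fin R
  have h2 : (-R) ^ L * ac R k = 0 := by
    rw [← ac_tail R K hK k hk L]
    exact hL _ (by omega)
  have h3 : R ^ L * ac R k = 0 := by
    rw [neg_pow] at h2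
    rcases neg_one_pow_eq_or (Matrix ι ι ℝ) L with h4 | h4
    · rwa [h4, one_mul] at h2
    · rw [h4, neg_one_mul, neg_mul, neg_eq_zero] at h2
      exact h2
  have hcR : Commute (ac R k) R := ac_comm R R (Commute.refl R) k
  have hcA : Commute (ac R k) A := ac_comm R A h k
  have h5 : IsNilpotent (ac R k * (R * A)) := by
    refine ⟨L + 1, ?_⟩
    have h6 : Commute (ac R k) (R * A) := hcR.mul_right hcA
    rw [h6.mul_pow, h.mul_pow, pow_succ (ac R k), pow_succ' R]
    have h7 : ac R k * (R * R ^ L * A ^ (L + 1)) = 0 := by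
      have h8 : Commute (ac R k) (R ^ L) := hcR.pow_right L
      calc ac R k * (R * R ^ L * A ^ (L + 1)) = (ac R k * R) * (R ^ L * A ^ (L + 1)) := by
            simp only [mul_assoc]
        _ = R * (ac R k * R ^ L) * A ^ (L + 1) := by rw [hcR.eq]; simp only [mul_assoc]
        _ = R * (R ^ L * ac R k) * A ^ (L + 1) := by rw [h8.eq]
        _ = 0 := by rw [h3]; simp
    rw [mul_assoc, h7, mul_zero]
  have h9 := Matrix.isNilpotent_trace_of_isNilpotent h5
  exact h9.eq_zero

/-- Piece BORD. -/
theorem bord : S_bord := by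
  intro ι _ _ M₀ B A N E₁ E₂ K hM hB hN hE hs hK
  set P : Matrix ι ι ℝ[X] := M₀.map C + (X : ℝ[X]) • B.map C with hP
  -- the part with `N`
  have hN0 : M₀ * E₁ + E₂ * M₀ = 0 := by
    have := hN 0
    simpa using this.symm
  have hN1 : N = B * E₁ + E₂ * B := by
    have := hN 1
    rw [one_smul, one_smul, add_mul, mul_add] at this
    rw [this]
    calc M₀ * E₁ + B * E₁ + (E₂ * M₀ + E₂ * B) = (M₀ * E₁ + E₂ * M₀) + (B * E₁ + E₂ * B) := by abel
      _ = B * E₁ + E₂ * B := by rw [hN0, zero_add]
  have hXN : (X : ℝ[X]) • N.map C = P * E₁.map C + E₂.map C * P := by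
    rw [hP, add_mul, mul_add, hN1]
    have e0 : (M₀.map C : Matrix ι ι ℝ[X]) * E₁.map C + E₂.map C * M₀.map C = 0 := by
      rw [← Matrix.map_mul, ← Matrix.map_mul, ← Matrix.map_add _ (fun a b => C_add), hN0]
      simp
    rw [Matrix.map_add _ (fun a b => C_add), Matrix.map_mul, Matrix.map_mul, smul_add,
      Matrix.smul_mul, Matrix.mul_smul]
    calc (X : ℝ[X]) • ((B.map C : Matrix ι ι ℝ[X]) * E₁.map C) + (X : ℝ[X]) • (E₂.map C * B.map C)
        = 0 + ((X : ℝ[X]) • ((B.map C : Matrix ι ι ℝ[X]) * E₁.map C) +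
          (X : ℝ[X]) • (E₂.map C * B.map C)) := by rw [zero_add]
      _ = _ := by rw [← e0]; abel
  have hTN : (P.adjugate * N.map C).trace = 0 := by
    have h1 : (X : ℝ[X]) * (P.adjugate * N.map C).trace = 0 := by
      have e1 : (X : ℝ[X]) * (P.adjugate * N.map C).trace =
          (P.adjugate * ((X : ℝ[X]) • N.map C)).trace := by
        rw [Matrix.mul_smul, Matrix.trace_smul, smul_eq_mul]
      rw [e1, hXN, mul_add, Matrix.trace_add, ← mul_assoc, Matrix.adjugate_mul, ← mul_assoc,
        Matrix.trace_mul_comm (P.adjugate * E₂.map C) P, ← mul_assoc, Matrix.mul_adjugate,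
        Matrix.smul_mul, Matrix.smul_mul, one_mul, one_mul, Matrix.trace_smul, Matrix.trace_smul,
        ← smul_add]
      have e2 : (E₁.map C : Matrix ι ι ℝ[X]).trace + (E₂.map C : Matrix ι ι ℝ[X]).trace =
          C (E₁.trace + E₂.trace) := by
        simp [Matrix.trace]
      rw [e2, hE]
      simp
    rcases mul_eq_zero.1 h1 with h2 | h2
    · exact absurd h2 X_ne_zero
    · exact h2
  -- the part with `B A`
  obtain ⟨s, hs⟩ := hs
  set P₀ : Matrix ι ι ℝ := M₀ + s • B with hP₀
  have hu : IsUnit P₀.det := isUnit_iff_ne_zero.2 hs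
  set R : Matrix ι ι ℝ := P₀⁻¹ * B with hR
  have hPR : P₀ * R = B := by
    rw [hR, ← mul_assoc, Matrix.mul_nonsing_inv _ hu, one_mul]
  have hRA : Commute R A := by
    have h1 : A.transpose * P₀ = -(P₀ * A) := by
      rw [eq_neg_iff_add_eq_zero, hP₀, mul_add, add_mul, Matrix.mul_smul, Matrix.smul_mul]
      calc A.transpose * M₀ + s • (A.transpose * B) + (M₀ * A + s • (B * A)) =
          (A.transpose * M₀ + M₀ * A) + s • (A.transpose * B + B * A) := by
            rw [smul_add]; abel
        _ = 0 := by rw [hM, hB]; simp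
    have h2 : A.transpose * B = -(B * A) := eq_neg_iff_add_eq_zero.2 hB
    -- `P₀ (R A) = B A = - Aᵀ B = - Aᵀ P₀ R = P₀ A R`
    have h3 : P₀ * (R * A) = P₀ * (A * R) := by
      rw [← mul_assoc, hPR, ← mul_assoc]
      have h4 : P₀ * A = -(A.transpose * P₀) := by rw [h1, neg_neg]
      rw [h4, neg_mul, mul_assoc, hPR, h2, neg_neg]
    have h5 := congrArg (fun m => P₀⁻¹ * m) h3
    simp only [← mul_assoc] at h5
    rw [Matrix.nonsing_inv_mul _ hu, one_mul, one_mul] at h5
    exact h5
  -- substitution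
  let φ : ℝ[X] →+* ℝ[X] := Polynomial.compRingHom (X - C s)
  let G : Matrix ι ι ℝ[X] := 1 + (X : ℝ[X]) • R.map C
  have hφC : ∀ a : ℝ, φ (C a) = C a := fun a => by simp [φ]
  have hφX : φ X = X - C s := by simp [φ]
  have hφmap : ∀ m : Matrix ι ι ℝ, (m.map C).map φ = m.map C := by
    intro m
    refine Matrix.ext fun i j => ?_
    simp [φ]
  have hPG : P = P₀.map C * G.map φ := by
    have e1 : G.map φ = 1 + (X - C s : ℝ[X]) • R.map C := by
      have e2 : G.map φ = φ.mapMatrix G := rfl
      rw [e2]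
      simp only [G, map_add, map_one]
      congr 1
      refine Matrix.ext fun i j => ?_
      simp only [RingHom.mapMatrix_apply, Matrix.map_apply, Matrix.smul_apply, smul_eq_mul,
        map_mul, hφC, hφX]
    rw [e1, mul_add, mul_one, Matrix.mul_smul, ← Matrix.map_mul, hPR, hP₀, hP]
    rw [Matrix.map_add _ (fun a b => C_add)]
    refine Matrix.ext fun i j => ?_
    simp only [Matrix.add_apply, Matrix.map_apply, Matrix.smul_apply, smul_eq_mul, C_mul]
    ring1
  have hdet : P.det = C P₀.det * φ G.det := by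
    rw [hPG, Matrix.det_mul]
    congr 1
    · rw [← RingHom.mapMatrix_apply, ← RingHom.map_det]
    · rw [← RingHom.mapMatrix_apply, ← RingHom.map_det]
  have hdegG : ∀ k, K < k → G.det.coeff k = 0 := by
    have h1 : P.det.natDegree ≤ K := by
      rw [Polynomial.natDegree_le_iff_coeff_eq_zero]
      exact hK
    rw [hdet, Polynomial.natDegree_C_mul hs] at h1
    have h2 : (φ G.det).natDegree = G.det.natDegree := by
      have : φ G.det = G.det.comp (X - C s) := rfl
      rw [this, Polynomial.natDegree_comp, Polynomial.natDegree_X_sub_C, mul_one]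
    rw [h2, Polynomial.natDegree_le_iff_coeff_eq_zero] at h1
    exact h1
  have hadj : P.adjugate = (G.adjugate).map φ * (P₀.adjugate).map C := by
    rw [hPG, Matrix.adjugate_mul_distrib]
    congr 1
    · rw [← RingHom.mapMatrix_apply, ← RingHom.map_adjugate]; rfl
    · rw [← RingHom.mapMatrix_apply, ← RingHom.map_adjugate]; rfl
  have hTA : (P.adjugate * (B * A).map C).trace =
      C P₀.det * φ ((G.adjugate * (R * A).map C).trace) := by
    have e1 : (P₀.adjugate) * (B * A) = P₀.det • (R * A) := by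
      rw [← hPR, mul_assoc, ← mul_assoc, Matrix.adjugate_mul, Matrix.smul_mul, one_mul]
    rw [hadj, mul_assoc, ← Matrix.map_mul, e1]
    have e2 : ((P₀.det • (R * A)).map C : Matrix ι ι ℝ[X]) = C P₀.det • ((R * A).map C) := by
      refine Matrix.ext fun i j => ?_
      simp only [Matrix.map_apply, Matrix.smul_apply, smul_eq_mul, C_mul]
    rw [e2, Matrix.mul_smul, Matrix.trace_smul, smul_eq_mul]
    congr 1
    have e3 : (G.adjugate).map φ * ((R * A).map C : Matrix ι ι ℝ[X]) =
        (G.adjugate * (R * A).map C).map φ := by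
      have e4 : (G.adjugate * ((R * A).map C : Matrix ι ι ℝ[X])).map φ =
          (G.adjugate).map φ * (((R * A).map C : Matrix ι ι ℝ[X]).map φ) := Matrix.map_mul
      rw [e4, hφmap]
    rw [e3]
    simp only [Matrix.trace, Matrix.diag_apply, Matrix.map_apply, map_sum]
  have hdegT : ∀ k, K ≤ k → ((P.adjugate * (B * A).map C).trace).coeff k = 0 := by
    have h1 : ((G.adjugate * (R * A).map C).trace).degree < (K : ℕ) := by
      rw [Polynomial.degree_lt_iff_coeff_zero]
      exact core R A hRA K hdegG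
    have h2 : (φ ((G.adjugate * (R * A).map C).trace)).degree < (K : ℕ) := by
      have h3 : φ ((G.adjugate * (R * A).map C).trace) =
        ((G.adjugate * (R * A).map C).trace).comp (X - C s) := rfl
      rw [h3]
      by_cases h0 : (G.adjugate * (R * A).map C).trace = 0
      · rw [h0]; simp
      · rw [← Polynomial.natDegree_lt_iff_degree_lt h0] at h1
        refine lt_of_le_of_lt Polynomial.degree_le_natDegree ?_
        rw [Polynomial.natDegree_comp, Polynomial.natDegree_X_sub_C, mul_one]
        exact_mod_cast h1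
    intro k hk
    rw [hTA, Polynomial.coeff_C_mul]
    rw [Polynomial.degree_lt_iff_coeff_zero] at h2
    rw [h2 k hk, mul_zero]
  have hsplit : (P.adjugate * (B * A + N).map C).trace =
      (P.adjugate * (B * A).map C).trace + (P.adjugate * N.map C).trace := by
    rw [Matrix.map_add _ (fun a b => C_add), mul_add, Matrix.trace_add]
  rw [hsplit, hTN, add_zero]
  exact hdegT K le_rfl

end Run7.h781.LK
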