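import Pool.Agent.Run7.h314.LK.Iface
import Pool.Agent.W717.G.JacR

/-! Piece PK of project LK (helper314): the coefficients of `det (M β + s B)` as homogeneous
polynomials in `β`, and their derivatives. -/

set_option autoImplicit false

namespace Run7.h781.LK

open Polynomial Pool.Agent.Run7.h314.LK

/-- The derivative at `0` of `ε ↦ (D (ε)).coeff k` for a polynomial `D` in `ε` over `ℝ[X]`. -/
lemma hasDerivAt_coeff (D : ℝ[X][X]) (k : ℕ) :
    HasDerivAt (fun ε : ℝ => (D.eval (C ε)).coeff k) (((derivative D).eval 0).coeff k) 0 := by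
  induction D using Polynomial.induction_on' with
  | add p q hp hq =>
    have := hp.add hq
    refine (this.congr_of_eventuallyEq ?_).congr_deriv ?_
    · exact Filter.Eventually.of_forall fun ε => by simp
    · simp
  | monomial j a =>
    have h1 : (fun ε : ℝ => ((monomial j a : ℝ[X][X]).eval (C ε)).coeff k) =
        fun ε : ℝ => a.coeff k * ε ^ j := by
      funext ε
      rw [Polynomial.eval_monomial, ← C_pow, Polynomial.coeff_mul_C]
    rw [h1]
    have h2 := (hasDerivAt_pow j (0 : ℝ)).const_mul (a.coeff k)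
    refine h2.congr_deriv ?_
    rw [Polynomial.derivative_monomial, Polynomial.eval_monomial]
    have h3 : a * (j : ℝ[X]) * (0 : ℝ[X]) ^ (j - 1) = a * C ((j : ℝ) * (0 : ℝ) ^ (j - 1)) := by
      rw [C_mul, C_pow, C_0, mul_assoc]
      simp
    rw [h3, Polynomial.coeff_mul_C]

variable {ι : Type} [Fintype ι] [DecidableEq ι] {n : ℕ}

/-- The generic matrix. -/
noncomputable def gen (M : (Fin n → ℝ) →ₗ[ℝ] Matrix ι ι ℝ) (B : Matrix ι ι ℝ) :
    Matrix ι ι (MvPolynomial (Fin (n + 1)) ℝ) := fun i j =>
  MvPolynomial.C (B i j) * MvPolynomial.X 0 +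
    ∑ k : Fin n, MvPolynomial.C (M (Pi.single k 1) i j) * MvPolynomial.X k.succ

lemma gen_hom (M : (Fin n → ℝ) →ₗ[ℝ] Matrix ι ι ℝ) (B : Matrix ι ι ℝ) (i j : ι) :
    (gen M B i j).IsHomogeneous 1 := by
  refine MvPolynomial.IsHomogeneous.add ?_ ?_
  · have := (MvPolynomial.isHomogeneous_C (Fin (n + 1)) (B i j)).mul
      (MvPolynomial.isHomogeneous_X ℝ (0 : Fin (n + 1)))
    simpa using this
  · refine MvPolynomial.IsHomogeneous.sum _ _ _ fun k _ => ?_
    have := (MvPolynomial.isHomogeneous_C (Fin (n + 1)) (M (Pi.single k 1) i j)).mul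
      (MvPolynomial.isHomogeneous_X ℝ (k.succ : Fin (n + 1)))
    simpa using this

lemma det_hom (M : (Fin n → ℝ) →ₗ[ℝ] Matrix ι ι ℝ) (B : Matrix ι ι ℝ) :
    (gen M B).det.IsHomogeneous (Fintype.card ι) := by
  rw [Matrix.det_apply]
  refine MvPolynomial.IsHomogeneous.sum _ _ _ fun σ _ => ?_
  have h1 : (∏ i, gen M B (σ i) i).IsHomogeneous (∑ _i : ι, 1) :=
    MvPolynomial.IsHomogeneous.prod _ _ _ fun i _ => gen_hom M B _ _
  rw [Finset.sum_const, smul_eq_mul, mul_one, Finset.card_univ] at h1
  rcases Int.units_eq_one_or (Equiv.Perm.sign σ) with h | h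
  · rw [h, one_smul]; exact h1
  · rw [h, Units.neg_smul, one_smul]; exact h1.neg

/-- The map to polynomials in `s`. -/
noncomputable def toS (β : Fin n → ℝ) : MvPolynomial (Fin (n + 1)) ℝ →+* ℝ[X] :=
  (Polynomial.mapRingHom (MvPolynomial.eval β)).comp
    (MvPolynomial.finSuccEquiv ℝ n : MvPolynomial (Fin (n + 1)) ℝ →+* _)

lemma toS_apply (β : Fin n → ℝ) (f : MvPolynomial (Fin (n + 1)) ℝ) :
    toS β f = (MvPolynomial.finSuccEquiv ℝ n f).map (MvPolynomial.eval β) := rfl

lemma M_eq (M : (Fin n → ℝ) →ₗ[ℝ] Matrix ι ι ℝ) (β : Fin n → ℝ) (i j : ι) :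
    M β i j = ∑ k : Fin n, M (Pi.single k 1) i j * β k := by
  have h1 : β = ∑ k : Fin n, β k • (Pi.single k 1 : Fin n → ℝ) := by
    funext l
    simp [Finset.sum_apply, Pi.single_apply]
  conv_lhs => rw [h1]
  rw [map_sum, Matrix.sum_apply]
  refine Finset.sum_congr rfl fun k _ => ?_
  rw [map_smul, Matrix.smul_apply, smul_eq_mul, mul_comm]

lemma toS_gen (M : (Fin n → ℝ) →ₗ[ℝ] Matrix ι ι ℝ) (B : Matrix ι ι ℝ) (β : Fin n → ℝ) :
    (gen M B).map (toS β) = (M β).map C + (X : ℝ[X]) • B.map C := by
  refine Matrix.ext fun i j => ?_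
  simp only [Matrix.map_apply, Matrix.add_apply, Matrix.smul_apply, smul_eq_mul, gen]
  rw [toS_apply]
  simp only [map_add, map_sum, map_mul, MvPolynomial.finSuccEquiv_apply,
    MvPolynomial.eval₂Hom_C, MvPolynomial.eval₂Hom_X', Fin.cases_zero, Fin.cases_succ,
    RingHom.comp_apply, Polynomial.map_add, Polynomial.map_mul, Polynomial.map_sum,
    Polynomial.map_C, Polynomial.map_X, MvPolynomial.eval_C, MvPolynomial.eval_X]
  rw [M_eq M β i j, map_sum]
  simp only [C_mul]
  rw [add_comm, mul_comm (C (B i j))]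

/-- Piece PK. -/
theorem pk : S_pk := by
  intro ι _ _ n M B
  let P : ℕ → MvPolynomial (Fin n) ℝ := fun k =>
    (MvPolynomial.finSuccEquiv ℝ n (gen M B).det).coeff k
  have hev : ∀ k β, MvPolynomial.eval β (P k) =
      (((M β).map C + (X : ℝ[X]) • B.map C).det).coeff k := by
    intro k β
    rw [← toS_gen M B β, ← RingHom.mapMatrix_apply, ← RingHom.map_det, toS_apply,
      Polynomial.coeff_map]
  refine ⟨P, ?_, ?_, hev, ?_⟩
  · intro k hk
    exact (det_hom M B).finSuccEquiv_coeff_isHomogeneous k (Fintype.card ι - k) (by omega)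
  · intro k hk
    refine Polynomial.coeff_eq_zero_of_natDegree_lt ?_
    rw [MvPolynomial.natDegree_finSuccEquiv]
    refine lt_of_le_of_lt (MvPolynomial.degreeOf_le_totalDegree _ _) ?_
    exact lt_of_le_of_lt (det_hom M B).totalDegree_le hk
  · intro k β δ
    let U : Matrix ι ι ℝ[X] := (M β).map C + (X : ℝ[X]) • B.map C
    let V : Matrix ι ι ℝ[X] := (M δ).map C
    let N : Matrix ι ι ℝ[X][X] := U.map C + (X : ℝ[X][X]) • V.map C
    have h1 : (fun ε : ℝ => MvPolynomial.eval (β + ε • δ) (P k)) =
        fun ε : ℝ => ((N.det).eval (C ε)).coeff k := by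
      funext ε
      rw [hev]
      congr 1
      have h2 : (N.det).eval (C ε) = (N.map (Polynomial.evalRingHom (C ε))).det := by
        rw [← RingHom.mapMatrix_apply, ← RingHom.map_det]
        rfl
      rw [h2]
      congr 1
      refine Matrix.ext fun i j => ?_
      simp only [N, U, V, Matrix.map_apply, Matrix.add_apply, Matrix.smul_apply, smul_eq_mul,
        Polynomial.coe_evalRingHom, Polynomial.eval_add, Polynomial.eval_mul, Polynomial.eval_C,
        Polynomial.eval_X, map_add, map_smul, C_add, C_mul]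
      ring
    rw [h1]
    refine (hasDerivAt_coeff N.det k).congr_deriv ?_
    congr 1
    rw [Pool.Agent.W717.G.jacobiR]
    have h3 : ((N.adjugate * N.map derivative).trace).eval 0 =
        (((N.adjugate * N.map derivative)).map (Polynomial.evalRingHom (0 : ℝ[X]))).trace := by
      simp only [Matrix.trace, Matrix.diag_apply, Matrix.map_apply, Polynomial.eval_finsetSum,
        Polynomial.coe_evalRingHom]
    have h4 : N.map (Polynomial.evalRingHom (0 : ℝ[X])) = U := by
      refine Matrix.ext fun i j => ?_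
      simp only [N, Matrix.map_apply, Matrix.add_apply, Matrix.smul_apply, smul_eq_mul,
        Polynomial.coe_evalRingHom, Polynomial.eval_add, Polynomial.eval_mul, Polynomial.eval_C,
        Polynomial.eval_X, zero_mul, add_zero]
    have h5 : (N.map derivative).map (Polynomial.evalRingHom (0 : ℝ[X])) = V := by
      refine Matrix.ext fun i j => ?_
      simp only [N, Matrix.map_apply, Matrix.add_apply, Matrix.smul_apply, smul_eq_mul,
        Polynomial.coe_evalRingHom, derivative_add, derivative_C, derivative_mul, derivative_X,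
        Polynomial.eval_add, Polynomial.eval_mul, Polynomial.eval_C, one_mul, mul_zero, add_zero,
        zero_add]
    have h6 : (N.adjugate * N.map derivative).map (Polynomial.evalRingHom (0 : ℝ[X])) =
        U.adjugate * V := by
      have e1 : (N.adjugate * N.map derivative).map (Polynomial.evalRingHom (0 : ℝ[X])) =
          N.adjugate.map (Polynomial.evalRingHom (0 : ℝ[X])) *
            (N.map derivative).map (Polynomial.evalRingHom (0 : ℝ[X])) := Matrix.map_mul
      rw [e1, h5]
      congr 1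
      rw [← RingHom.mapMatrix_apply, RingHom.map_adjugate, RingHom.mapMatrix_apply, h4]
    rw [h3, h6]

end Run7.h781.LK
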